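import Mathlib
import Pool.Agent.H384R2.Fatou
import Pool.Agent.TH224.SC.Defs
import Pool.Agent.Q75.BwF

/-!
# A Baker wandering domain whose orbit contains all critical points

Let `a_0 = 1`, `a_{n+1} = 4000 a_n ∏_{j ≤ n} |1 - (a_n / 2)² / a_j²|` and
`f(z) = 8·10⁶ z ∏_j (1 - z² / a_j²)`.  The annuli `10 a_n < |z| < a_{n+1} / 200` are mapped into each
other, so they lie in Fatou components `U_n`, which form one orbit of multiply connected wandering
domains.  The critical points of `f` are real, and there is at most one pair `± c` between two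
consecutive zeros, at which `|f|` is maximal on the interval; together with the fact that `|f|` is
smallest on the real axis on every circle around `0`, this shows that the whole circle `|z| = |c|`
is in some `U_n`.  On the other hand small circles around the zeros `± a_n` are in `U_n`, and a point
whose orbit follows a prescribed sequence of zeros is a one-point component of the complement of
`U_0`.
-/

set_option autoImplicit false

namespace Pool.Agent.Results.MP_8c76c5_an.CriticalInOrbit

open Set Filter Metric Pool.Agent.H384R2.Fatou Pool.Agent.TH224.SC Pool.Agent.Q75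

/-- `A` surrounds `0`: the point `0` is not in `A`, and the component containing `0` of the complement
of `A` in the Riemann sphere is contained in a disc of the plane. -/
def SurroundsZero (A : Set ℂ) : Prop :=
  (0 : ℂ) ∉ A ∧ ∃ R : ℝ,
    connectedComponentIn (((↑) : ℂ → OnePoint ℂ) '' A)ᶜ ((0 : ℂ) : OnePoint ℂ) ⊆
      ((↑) : ℂ → OnePoint ℂ) '' ball 0 R

/-- `U 0` is a Baker wandering domain of `f`, and `U n` is the Fatou component containing
`f^n(U 0)`: the components `U n` are pairwise disjoint, `f^n → ∞` on `U 0`, and for all large `n` the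
component `U n` is bounded, multiply connected and surrounds `0`. -/
def IsBWD (f : ℂ → ℂ) (U : ℕ → Set ℂ) : Prop :=
  (∀ n, ∃ p ∈ FatouSet f, U n = FatouComponent f p) ∧
  (∀ n, f^[n] '' U 0 ⊆ U n) ∧
  (∀ m n, m ≠ n → Disjoint (U m) (U n)) ∧
  (∀ z ∈ U 0, Tendsto (fun n => ‖f^[n] z‖) atTop atTop) ∧
  ∀ᶠ n in atTop, Bornology.IsBounded (U n) ∧ (SphereHoles (U n)).Nontrivial ∧ SurroundsZero (U n)

/-- There is a transcendental entire function `f` with an infinitely connected Baker wandering domain
`U 0` such that every critical point of `f` lies in one of the components `U 0, U 1, U 2, …` of its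
orbit. -/
theorem result : ∃ (f : ℂ → ℂ) (U : ℕ → Set ℂ),
    TransEntire f ∧ IsBWD f U ∧ (SphereHoles (U 0)).Infinite ∧
    ∀ c : ℂ, deriv f c = 0 → ∃ k, c ∈ U k := by
  refine ⟨Bw.f, Bw.U, Bw.transE, ⟨fun n => ⟨_, Bw.X_F n, rfl⟩, fun n => ?_,
    fun m n h => Bw.U_disj h, fun z hz => Bw.U_esc hz, Eventually.of_forall fun n =>
      ⟨Bw.U_bounded n, (Bw.holes_inf n).nontrivial, Bw.zero_not_U n, _, Bw.zero_comp n⟩⟩,
    Bw.holes_inf 0, fun c hc => Bw.crit_mem hc⟩
  rw [Bw.U_iter_eq, zero_add]

end Pool.Agent.Results.MP_8c76c5_an.CriticalInOrbit
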